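import Mathlib

namespace Pool.Agent.H.MP_c2a681_co

def PD (u : ℕ → Bool) : Prop := ∀ n : ℕ, u (2 * n) = false ∧ u (2 * n + 1) = !(u n)

def Pal (u : ℕ → Bool) (n' n : ℕ) : Prop :=
  ∀ p q, n' < p → p ≤ n → p + q = n + n' + 1 → u (p - 1) = u (q - 1)

def G (n i : ℕ) : Prop := n.testBit i ≠ n.testBit (i + 1)

variable {u : ℕ → Bool}

lemma decomp {m : ℕ} (hm : m ≠ 0) : ∃ s n, m = 2 ^ s * (2 * n + 1) := by
  obtain ⟨s, x, ⟨n, rfl⟩, e⟩ := Nat.exists_eq_two_pow_mul_odd hm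
  exact ⟨s, n, e⟩

lemma val (hu : PD u) (s σ : ℕ) : u (2 ^ s * (2 * σ + 1) - 1) = decide (s % 2 = 1) := by
  induction s with
  | zero => simpa using (hu σ).1
  | succ s ih =>
    have : 0 < 2 ^ s * (2 * σ + 1) := by positivity
    rw [show 2 ^ (s + 1) * (2 * σ + 1) - 1 = 2 * (2 ^ s * (2 * σ + 1) - 1) + 1 by
      rw [pow_succ', mul_assoc]; omega, (hu _).2, ih]
    rcases Nat.mod_two_eq_zero_or_one s with h | h <;> simp [Nat.add_mod, h]

lemma sym (hu : PD u) {w p q y : ℕ} (h : p + q = 2 ^ w * y) (hp : ¬ 2 ^ w ∣ p) :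
    u (p - 1) = u (q - 1) := by
  obtain ⟨s, σ, rfl⟩ := decomp (m := p) (by rintro rfl; simp at hp)
  have hs : s < w := by
    by_contra c
    exact hp ((pow_dvd_pow 2 (by omega)).mul_right _)
  obtain ⟨d, rfl⟩ := Nat.exists_eq_add_of_lt hs
  have h0 : 0 < 2 ^ s := by positivity
  have h1 : 2 ^ (s + d + 1) * y = 2 ^ s * (2 * (2 ^ d * y)) := by ring
  have h2 : σ < 2 ^ d * y := by
    have : 2 ^ s * (2 * σ + 1) ≤ 2 ^ s * (2 * (2 ^ d * y)) := by omega
    have := Nat.le_of_mul_le_mul_left this h0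
    omega
  obtain ⟨z, hz⟩ := Nat.exists_eq_add_of_lt h2
  have : q = 2 ^ s * (2 * z + 1) := by
    rw [h1, hz] at h
    nlinarith
  rw [this, val hu, val hu]

lemma not_dvd {a σ p : ℕ} (h1 : a * σ < p) (h2 : p < a * σ + a) : ¬ a ∣ p := by
  rintro ⟨j, rfl⟩
  have := Nat.lt_of_mul_lt_mul_left h1
  have : j < σ + 1 := Nat.lt_of_mul_lt_mul_left (a := a) (by rw [mul_add]; omega)
  omega

lemma palB (hu : PD u) {t σ e e' : ℕ} (h : e + e' + 1 = 2 ^ t) :
    Pal u (2 ^ t * σ + e') (2 ^ t * σ + e) := fun p q h1 h2 h3 =>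
  sym hu (w := t) (y := 2 * σ + 1) (by rw [h3]; linear_combination h)
    (not_dvd (σ := σ) (by omega) (by omega))

lemma palE (hu : PD u) {t d h e n' : ℕ} (he : e < 2 ^ t)
    (hn : n' + 1 + e = 2 ^ (t + 2 + 2 * d) * (2 * h + 1)) :
    Pal u n' (2 ^ (t + 2 + 2 * d) * (2 * h + 1) + 2 ^ t + e) := by
  intro p q h1 h2 h3
  obtain ⟨c, hc⟩ : ∃ c, 2 ^ (1 + 2 * d) * (2 * h + 1) = c + 1 :=
    ⟨_, (Nat.succ_pred_eq_of_pos (by positivity)).symm⟩
  have e1 : 2 ^ (t + 2 + 2 * d) * (2 * h + 1) = 2 ^ t * (2 * c + 2) := by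
    rw [show 2 * c + 2 = 2 * (c + 1) by ring, ← hc]; ring
  have v1 := val hu (t + 2 + 2 * d) h
  have v2 := val hu t (c + 1)
  rw [show (t + 2 + 2 * d) % 2 = t % 2 by omega, ← v2, show 2 ^ t * (2 * (c + 1) + 1) =
    2 ^ t * (2 * c + 2) + 2 ^ t by ring] at v1
  rw [e1] at v1 hn h2 h3
  by_cases a1 : p = 2 ^ t * (2 * c + 2)
  · rw [a1, show q = 2 ^ t * (2 * c + 2) + 2 ^ t by omega, v1]
  by_cases a2 : p = 2 ^ t * (2 * c + 2) + 2 ^ t
  · rw [a2, show q = 2 ^ t * (2 * c + 2) by omega, v1]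
  refine sym hu (w := t) (y := 4 * c + 5) (by rw [h3]; linear_combination hn) ?_
  have b1 : 2 ^ t * (2 * c + 2) = 2 ^ t * (2 * c + 1) + 2 ^ t := by ring
  have b2 : 2 ^ t * (2 * c + 3) = 2 ^ t * (2 * c + 2) + 2 ^ t := by ring
  rcases lt_or_gt_of_ne a1 with r | r
  · exact not_dvd (σ := 2 * c + 1) (by omega) (by omega)
  · rcases lt_or_gt_of_ne a2 with r' | r'
    · exact not_dvd (σ := 2 * c + 2) (by omega) (by omega)
    · exact not_dvd (σ := 2 * c + 3) (by omega) (by omega)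

def MB (n n' t : ℕ) : Prop := ∀ i, G n' i ↔ (G n i ↔ i + 1 ≠ t)

def ME (n n' w t : ℕ) : Prop :=
  t + 2 ≤ w ∧ w % 2 = t % 2 ∧ G n (w - 1) ∧ (∀ i, t < i → i + 1 < w → ¬ G n i) ∧
    ∀ i, G n' i ↔ (G n i ↔ ¬ (i = w ∨ i = t ∨ i + 1 = t))

lemma mB {t σ e e' : ℕ} (h : e + e' + 1 = 2 ^ t) : MB (2 ^ t * σ + e) (2 ^ t * σ + e') t := by
  have b : ∀ i, (2 ^ t * σ + e').testBit i =
      if i < t then !(2 ^ t * σ + e).testBit i else (2 ^ t * σ + e).testBit i := by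
    intro i
    rw [Nat.testBit_two_pow_mul_add _ (by omega), Nat.testBit_two_pow_mul_add _ (by omega),
      show e' = 2 ^ t - (e + 1) by omega, Nat.testBit_two_pow_sub_succ (by omega)]
    split_ifs with c <;> simp [c]
  intro i
  unfold G
  rw [b, b]
  generalize (2 ^ t * σ + e).testBit i = x
  generalize (2 ^ t * σ + e).testBit (i + 1) = y
  split_ifs <;> cases x <;> cases y <;> simp <;> omega

lemma mE {w t h e y y' n' : ℕ} (h1 : t + 2 ≤ w) (h2 : w % 2 = t % 2) (he : e < 2 ^ t)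
    (hy : (y = e ∧ y' = 2 ^ t + e) ∨ (y = 2 ^ t + e ∧ y' = e))
    (hn : n' + 1 + y' = 2 ^ w * (2 * h + 1)) : ME (2 ^ w * (2 * h + 1) + y) n' w t := by
  have p1 : 2 ^ (t + 1) < 2 ^ w := Nat.pow_lt_pow_right (by norm_num) (by omega)
  have p2 : 2 ^ (t + 1) = 2 * 2 ^ t := pow_succ' _ _
  have p3 : 2 ^ (w + 1) = 2 * 2 ^ w := pow_succ' _ _
  have y1 : y < 2 ^ (t + 1) := by omega
  have y2 : y' < 2 ^ (t + 1) := by omega
  have e1 : 2 ^ w * (2 * h + 1) = 2 ^ (w + 1) * h + 2 ^ w := by ring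
  have yt : ∀ i, y'.testBit i = if i = t then !y.testBit i else y.testBit i := by
    intro i
    rcases lt_trichotomy i t with c | c | c
    · rcases hy with ⟨rfl, rfl⟩ | ⟨rfl, rfl⟩ <;> simp [Nat.testBit_two_pow_add_gt c, c.ne]
    · rcases hy with ⟨rfl, rfl⟩ | ⟨rfl, rfl⟩ <;> simp [c, Nat.testBit_two_pow_add_eq]
    · have := Nat.pow_le_pow_right (show 0 < 2 by norm_num) (show t + 1 ≤ i by omega)
      rw [if_neg c.ne', Nat.testBit_lt_two_pow (by omega), Nat.testBit_lt_two_pow (by omega)]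
  set n := 2 ^ w * (2 * h + 1) + y with hn0
  have a : ∀ i, n.testBit i = if i < w then y.testBit i else if i = w then true
      else h.testBit (i - (w + 1)) := by
    intro i
    rw [show n = 2 ^ (w + 1) * h + (2 ^ w + y) by omega, Nat.testBit_two_pow_mul_add _ (by omega)]
    rcases lt_trichotomy i w with c | c | c
    · rw [if_pos (by omega), if_pos c, Nat.testBit_two_pow_add_gt c]
    · rw [if_pos (by omega), if_neg (by omega), if_pos c, c, Nat.testBit_two_pow_add_eq,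
        Nat.testBit_lt_two_pow (by omega)]
      rfl
    · rw [if_neg (by omega), if_neg (by omega), if_neg (by omega)]
  have b : ∀ i, n'.testBit i = if i ≤ w ∧ i ≠ t then !n.testBit i else n.testBit i := by
    intro i
    rw [show n' = 2 ^ (w + 1) * h + (2 ^ w - (y' + 1)) by omega,
      Nat.testBit_two_pow_mul_add _ (by omega), Nat.testBit_two_pow_sub_succ (by omega), yt, a]
    split_ifs <;> first | omega | (simp [*]; try omega)
  have z : ∀ i, t < i → i < w → n.testBit i = false := fun i c c' => by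
    have := Nat.pow_le_pow_right (show 0 < 2 by norm_num) (show t + 1 ≤ i by omega)
    rw [a, if_pos c', Nat.testBit_lt_two_pow (by omega)]
  refine ⟨h1, h2, ?_, fun i c c' => ?_, fun i => ?_⟩
  · unfold G
    rw [z _ (by omega) (by omega), show w - 1 + 1 = w by omega, a]
    simp
  · unfold G
    rw [z _ c (by omega), z _ (by omega) c']
    simp
  · unfold G
    rw [b, b]
    generalize n.testBit i = x
    generalize n.testBit (i + 1) = y
    split_ifs <;> cases x <;> cases y <;> simp <;> omega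

lemma classify (hu : PD u) {n' n : ℕ} (hn : n' ≤ n) (h : Pal u n' n) :
    (∃ t, MB n n' t) ∨ ∃ w t, ME n n' w t := by
  obtain ⟨t, σ, hS⟩ := decomp (m := n + n' + 1) (by omega)
  have t0 : 0 < 2 ^ t := by positivity
  have e0 : 2 ^ t * (2 * σ + 1) = 2 * (2 ^ t * σ) + 2 ^ t := by ring
  rcases lt_or_ge n (2 ^ t * σ + 2 ^ t) with c | c
  · left
    have := @mB t σ (n - 2 ^ t * σ) (n' - 2 ^ t * σ) (by omega)
    rw [Nat.add_sub_cancel' (by omega), Nat.add_sub_cancel' (by omega)] at this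
    exact ⟨t, this⟩
  right
  have k1 := h (2 ^ t * σ + 2 ^ t) (2 ^ t * σ) (by omega) c (by omega)
  have lt : n < 2 ^ t * σ + 2 * 2 ^ t ∨
      u (2 ^ t * σ + 2 * 2 ^ t - 1) = u (2 ^ t * σ - 2 ^ t - 1) := by
    rcases lt_or_ge n (2 ^ t * σ + 2 * 2 ^ t) with c | c
    · exact Or.inl c
    · exact Or.inr (h _ _ (by omega) c (by omega))
  rcases Nat.even_or_odd' σ with ⟨x, rfl | rfl⟩
  · have x0 : x ≠ 0 := by rintro rfl; omega
    obtain ⟨s, y, rfl⟩ := decomp x0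
    have o : 2 ^ t * (2 * (2 ^ s * (2 * y + 1))) = 2 ^ (t + 1 + s) * (2 * y + 1) := by ring
    rw [show 2 ^ t * (2 * (2 ^ s * (2 * y + 1))) + 2 ^ t = 2 ^ t * (2 * (2 ^ s * (2 * y + 1)) + 1)
      by ring, val hu, o, val hu, decide_eq_decide] at k1
    obtain ⟨s, rfl⟩ : ∃ r, s = r + 1 := ⟨s - 1, by omega⟩
    obtain ⟨z, hz⟩ : ∃ z, 2 ^ (s + 1) * (2 * y + 1) = z + 1 :=
      ⟨_, (Nat.succ_pred_eq_of_pos (by positivity)).symm⟩
    have lt' : n < 2 ^ t * (2 * (2 ^ (s + 1) * (2 * y + 1))) + 2 * 2 ^ t := by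
      refine lt.resolve_right ?_
      rw [show 2 ^ t * (2 * (2 ^ (s + 1) * (2 * y + 1))) + 2 * 2 ^ t =
        2 ^ (t + 1) * (2 * (2 ^ s * (2 * y + 1)) + 1) by ring, val hu, hz,
        show 2 ^ t * (2 * (z + 1)) - 2 ^ t = 2 ^ t * (2 * z + 1) from
          Nat.sub_eq_of_eq_add (by ring), val hu, decide_eq_decide]
      omega
    rw [o] at c lt' e0
    have := @mE (t + 1 + (s + 1)) t y (n - 2 ^ (t + 1 + (s + 1)) * (2 * y + 1) - 2 ^ t) _ _ n'
      (by omega) (by omega) (by omega) (Or.inr ⟨rfl, rfl⟩) (by omega)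
    rw [show ∀ a b : ℕ, a + b ≤ n → a + (b + (n - a - b)) = n from fun a b h => by omega] at this
    exacts [⟨_, _, this⟩, c]
  · obtain ⟨s, y, hx⟩ := decomp (m := x + 1) (by omega)
    have o : 2 ^ t * (2 * x + 1) + 2 ^ t = 2 ^ (t + 1 + s) * (2 * y + 1) := by
      rw [show 2 ^ t * (2 * x + 1) + 2 ^ t = 2 ^ (t + 1) * (x + 1) by ring, hx]; ring
    rw [o, val hu, val hu, decide_eq_decide] at k1
    obtain ⟨s, rfl⟩ : ∃ r, s = r + 1 := ⟨s - 1, by omega⟩
    obtain ⟨z, hz⟩ : ∃ z, 2 ^ s * (2 * y + 1) = z + 1 :=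
      ⟨_, (Nat.succ_pred_eq_of_pos (by positivity)).symm⟩
    have hx' : x = 2 * z + 1 := by
      rw [pow_succ', mul_assoc, hz] at hx; omega
    have lt' : n < 2 ^ t * (2 * x + 1) + 2 * 2 ^ t := by
      refine lt.resolve_right ?_
      rw [show 2 ^ t * (2 * x + 1) + 2 * 2 ^ t = 2 ^ t * (2 * (x + 1) + 1) by ring, val hu,
        show 2 ^ t * (2 * x + 1) - 2 ^ t = 2 ^ (t + 1) * (2 * z + 1) from
          Nat.sub_eq_of_eq_add (by rw [hx']; ring), val hu, decide_eq_decide]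
      omega
    have := @mE (t + 1 + (s + 1)) t y (n - 2 ^ (t + 1 + (s + 1)) * (2 * y + 1)) _ _ n'
      (by omega) (by omega) (by omega) (Or.inl ⟨rfl, rfl⟩) (by omega)
    rw [Nat.add_sub_cancel' (by omega)] at this
    exact ⟨_, _, this⟩

end Pool.Agent.H.MP_c2a681_co
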