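import Pool.Agent.H.MP_c2a681_co.A

namespace Pool.Agent.H.MP_c2a681_co
open Finset

inductive Reach (u : ℕ → Bool) : ℕ → ℕ → Prop
  | zero : Reach u 0 0
  | step {k n' n : ℕ} : Reach u k n' → n' ≤ n → Pal u n' n → Reach u (k + 1) n

variable {u : ℕ → Bool}

lemma pack (hu : PD u) {k n : ℕ} (h : Reach u k n) : ∀ A : Finset ℕ, (∀ a ∈ A, G n a) →
    (∀ a ∈ A, ∀ b ∈ A, a < b → a + 3 ≤ b) → A.card ≤ k := by
  induction h with
  | zero =>
    intro A h _
    rw [Nat.le_zero, card_eq_zero, eq_empty_iff_forall_notMem]
    exact fun a ha => h a ha (by simp)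
  | @step k n' n _ h1 h2 ih =>
    intro A hA hs
    rcases classify hu h1 h2 with ⟨t, h⟩ | ⟨w, t, e1, e2, e3, e4, e5⟩
    · have := ih (A.erase (t - 1)) (fun a ha => (h a).2 (iff_of_true (hA a (mem_of_mem_erase ha))
        (by have := ne_of_mem_erase ha; omega)))
        (fun a ha b hb => hs a (mem_of_mem_erase ha) b (mem_of_mem_erase hb))
      have := pred_card_le_card_erase (s := A) (a := t - 1)
      omega
    · set A1 := A.filter (fun a => a ≠ t ∧ a + 1 ≠ t) with hA1
      have c1 : (A.filter (fun a => ¬ (a ≠ t ∧ a + 1 ≠ t))).card ≤ 1 := by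
        refine card_le_one.2 (fun a ha b hb => ?_)
        obtain ⟨a1, a2⟩ := mem_filter.1 ha
        obtain ⟨b1, b2⟩ := mem_filter.1 hb
        have := hs a a1 b b1
        have := hs b b1 a a1
        omega
      have c2 := card_filter_add_card_filter_not (s := A) (fun a => a ≠ t ∧ a + 1 ≠ t)
      rw [← hA1] at c2
      have sp : ∀ a ∈ A1, ∀ b ∈ A1, a < b →
          (if a = w then w - 1 else a) + 3 ≤ if b = w then w - 1 else b := by
        intro a ha b hb hab
        obtain ⟨a1, a2⟩ := mem_filter.1 ha
        have p := hs a a1 b (mem_filter.1 hb).1 hab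
        have q : ¬ (t < a ∧ a + 1 < w) := fun r => e4 a r.1 r.2 (hA a a1)
        split_ifs <;> omega
      have c3 := ih (A1.image (fun a => if a = w then w - 1 else a)) (fun x hx => by
          obtain ⟨a, ha, rfl⟩ := mem_image.1 hx
          obtain ⟨a1, a2⟩ := mem_filter.1 ha
          split_ifs with p
          · exact (e5 _).2 (iff_of_true e3 (by omega))
          · exact (e5 _).2 (iff_of_true (hA a a1) (by omega)))
        (fun x hx y hy hxy => by
          obtain ⟨a, ha, rfl⟩ := mem_image.1 hx
          obtain ⟨b, hb, rfl⟩ := mem_image.1 hy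
          rcases lt_trichotomy a b with p | p | p
          · exact sp a ha b hb p
          · rw [p] at hxy; omega
          · have := sp b hb a ha p; omega)
      rw [card_image_of_injOn (fun a ha b hb e => by
        rcases lt_trichotomy a b with p | p | p
        · have := sp a ha b hb p; omega
        · exact p
        · have := sp b hb a ha p; omega)] at c3
      omega

def v (D : Finset ℕ) : ℕ → ℤ
  | 0 => 0
  | i + 1 => if i ∈ D then ((i % 2 : ℕ) : ℤ) - v D i else v D i

lemma v_move {D D' : Finset ℕ} {w t : ℕ} (h1 : t < w) (h2 : w % 2 = t % 2) (ht : t ∈ D)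
    (ht' : t ∉ D') (hw : w ∈ D' ↔ w ∉ D) (hb : ∀ i, t < i → i < w → i ∉ D)
    (ho : ∀ i, i ≠ t → i ≠ w → (i ∈ D' ↔ i ∈ D)) (i : ℕ) :
    v D' i = if t < i ∧ i ≤ w then ((t % 2 : ℕ) : ℤ) - v D i else v D i := by
  induction i with
  | zero => simp [v]
  | succ i ih =>
    simp only [v, ih]
    by_cases a : i = t
    · subst a
      simp [ht, ht', Nat.succ_le_of_lt h1]
    by_cases b : i = w
    · subst b
      by_cases c : i ∈ D <;> simp [hw, c, h1, h2]
    by_cases c : t < i ∧ i < w
    · have := hb i c.1 c.2
      rw [if_neg (by rw [ho i a b]; exact this), if_neg this, if_pos (by omega), if_pos (by omega)]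
    · rw [if_neg (show ¬ (t < i ∧ i ≤ w) by omega), if_neg (show ¬ (t < i + 1 ∧ i + 1 ≤ w) by omega)]
      simp only [ho i a b]

lemma inv (hu : PD u) {k n : ℕ} (h : Reach u k n) : ∀ T D : Finset ℕ, (∀ a ∈ T, 2 ≤ a) →
    (∀ a ∈ T, ∀ b ∈ T, a < b → a + 5 ≤ b) → D ⊆ T → (∀ i, G n i ↔ (i + 1 ∈ T ∨ i ∈ D)) →
    k ≤ T.card → ∀ N, (∀ a ∈ T, a < N) → v D N = 0 := by
  induction h with
  | zero =>
    intro T D h1 _ h3 h4 _ N hN
    have : ∀ a, a ∉ D := fun a ha => (h4 a).2 (Or.inr ha) (by simp)
    clear hN
    induction N with
    | zero => rfl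
    | succ N ih => simp [v, this, ih]
  | @step k n' n h0 h1 h2 ih =>
    intro T D t2 sp DT hG hk N hN
    have sp' : ∀ a ∈ T, ∀ b ∈ T, a = b ∨ a + 5 ≤ b ∨ b + 5 ≤ a := fun a ha b hb => by
      have := sp a ha b hb
      have := sp b hb a ha
      omega
    have base : ∀ a ∈ T, G n (a - 1) := fun a ha => (hG _).2 (Or.inl (by
      have := t2 a ha
      rwa [show a - 1 + 1 = a by omega]))
    have contra : ∀ τ x : ℕ, (∀ a ∈ T, a ≠ τ → G n' (a - 1)) →
        (τ ∈ T → G n' x ∧ τ ≤ x + 2 ∧ x ≤ τ) → False := by
      intro τ x p q
      have s : ∀ a ∈ T, ∀ b ∈ T, a < b →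
          (if a = τ then x else a - 1) + 3 ≤ if b = τ then x else b - 1 := by
        intro a ha b hb hab
        have := sp a ha b hb hab
        split_ifs with r r' r'
        · omega
        · have := q (r ▸ ha); omega
        · have := q (r' ▸ hb); omega
        · omega
      have c3 := pack hu h0 (T.image (fun a => if a = τ then x else a - 1)) (fun y hy => by
          obtain ⟨a, ha, rfl⟩ := mem_image.1 hy
          split_ifs with r
          · exact (q (r ▸ ha)).1
          · exact p a ha r)
        (fun x hx y hy hxy => by
          obtain ⟨a, ha, rfl⟩ := mem_image.1 hx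
          obtain ⟨b, hb, rfl⟩ := mem_image.1 hy
          rcases lt_trichotomy a b with p | p | p
          · exact s a ha b hb p
          · rw [p] at hxy; omega
          · have := s b hb a ha p; omega)
      rw [card_image_of_injOn (fun a ha b hb e => by
        rcases lt_trichotomy a b with p | p | p
        · have := s a ha b hb p; omega
        · exact p
        · have := s b hb a ha p; omega)] at c3
      omega
    rcases classify hu h1 h2 with ⟨t, h⟩ | ⟨w, t, e1, e2, e3, e4, e5⟩
    · have keep : ∀ a ∈ T, a ≠ t → G n' (a - 1) := fun a ha r =>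
        (h _).2 (iff_of_true (base a ha) (by have := t2 a ha; omega))
      by_cases p : t ∈ T ∧ t ∉ D
      · refine ih (T.erase t) D (fun a ha => t2 a (mem_of_mem_erase ha))
          (fun a ha b hb => sp a (mem_of_mem_erase ha) b (mem_of_mem_erase hb))
          (fun a ha => mem_erase.2 ⟨fun e => p.2 (e ▸ ha), DT ha⟩) (fun i => ?_)
          (by rw [card_erase_of_mem p.1]; omega) N (fun a ha => hN a (mem_of_mem_erase ha))
        rw [h, hG, mem_erase]
        by_cases r : i + 1 = t
        · have : i ∉ D := fun c => by have := sp' i (DT c) t p.1; omega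
          simp [r, p.1, this]
        · simp [r]
      · refine (contra t t keep (fun q => ⟨?_, by omega, le_rfl⟩)).elim
        exact (h _).2 (iff_of_true ((hG _).2 (Or.inr (by tauto))) (by omega))
    · have hw : w ∈ T ∨ w - 1 ∈ D := by
        have := (hG _).1 e3
        rwa [show w - 1 + 1 = w by omega] at this
      have keep : ∀ a ∈ T, a ≠ t → a ≠ t + 1 → G n' (a - 1) := fun a ha r r' => by
        refine (e5 _).2 (iff_of_true (base a ha) ?_)
        have := t2 a ha
        rcases hw with c | c
        · have := sp' a ha w c; omega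
        · have := sp' a ha _ (DT c); omega
      by_cases p0 : t + 1 ∈ T
      · refine (contra (t + 1) (t - 1) (fun a ha r => keep a ha ?_ r)
          (fun _ => ⟨?_, by have := t2 _ p0; omega, by omega⟩)).elim
        · have := sp' a ha _ p0; omega
        · have := t2 _ p0
          refine (e5 _).2 (iff_of_false ?_ (by omega))
          rw [hG]
          rintro (c | c)
          · have := sp' _ c _ p0; omega
          · have := sp' _ (DT c) _ p0; omega
      by_cases p : t ∈ D
      · have tT := DT p
        have wT : w ∈ T := hw.resolve_right (fun c => by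
          have := sp' _ (DT c) _ tT
          exact e4 (w - 1 - 1) (by omega) (by omega) (base _ (DT c)))
        have btw : ∀ i, t < i → i < w → i ∉ T := fun i a b c => by
          have := sp' i c t tT
          exact e4 (i - 1) (by omega) (by omega) (base i c)
        set D' := if w ∈ D then (D.erase t).erase w else insert w (D.erase t) with hD'
        have m : ∀ i, i ∈ D' ↔ i ≠ t ∧ (i ∈ D ↔ i ≠ w) := fun i => by
          rw [hD']
          split_ifs with c
          · by_cases r : i = w <;> simp [r, c]
          · by_cases r : i = w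
            · simp [r, c]; omega
            · simp [r]
        have := ih (T.erase t) D' (fun a ha => t2 a (mem_of_mem_erase ha))
          (fun a ha b hb => sp a (mem_of_mem_erase ha) b (mem_of_mem_erase hb))
          (fun a ha => by
            obtain ⟨a1, a2⟩ := (m a).1 ha
            refine mem_erase.2 ⟨a1, ?_⟩
            by_cases r : a = w
            · exact r ▸ wT
            · exact DT (a2.2 r)) (fun i => ?_)
          (by rw [card_erase_of_mem tT]; omega) N (fun a ha => hN a (mem_of_mem_erase ha))
        · rw [v_move (show t < w by omega) e2 p (by simp [m]) (by simp [m]; omega)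
            (fun i a b c => btw i a b (DT c)) (fun i a b => by simp [m, a, b]),
            if_neg (by have := hN w wT; omega)] at this
          exact this
        · rw [e5, hG, mem_erase, m]
          by_cases r : i = w
          · have : w + 1 ∉ T := fun c => by have := sp' _ c w wT; omega
            have : w ≠ t := by omega
            simp [r, *]
          by_cases r' : i = t
          · simp [r', p, p0]
          by_cases r'' : i + 1 = t
          · have : i ∉ D := fun c => by have := sp' i (DT c) t tT; omega
            simp [r'', tT, this, r]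
          · simp [r, r', r'']
      · refine (contra t t (fun a ha r => keep a ha r (fun c => p0 (c ▸ ha)))
          (fun _ => ⟨?_, by omega, le_rfl⟩)).elim
        exact (e5 _).2 (iff_of_false (by rw [hG]; tauto) (by omega))

end Pool.Agent.H.MP_c2a681_co
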