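import Pool.Agent.H.MP_c2a681_co.B

namespace Pool.Agent.H.MP_c2a681_co
open Finset

variable {u : ℕ → Bool}

lemma half (hu : PD u) {k w h y e : ℕ} (he : e + y + 1 = 2 ^ w) (hy : y ≤ e)
    (H : Reach u k (2 ^ (w + 1) * h + y)) : Reach u (k + 1) (2 ^ (w + 1) * h + e) := by
  have := palB hu (σ := 2 * h) he
  rw [show 2 ^ w * (2 * h) = 2 ^ (w + 1) * h by ring] at this
  exact H.step (by omega) this

lemma Z1 (hu : PD u) {k w h y : ℕ} (hy : 2 * y < 2 ^ w)
    (H : Reach u k (2 ^ (w + 1) * h + y)) : Reach u (k + 2) (2 ^ (w + 1) * h + 2 ^ w + y) := by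
  have := half hu (e := 2 ^ w - 1 - y) (by omega) (by omega) H
  rw [add_assoc]
  exact this.step (by omega) (palB hu (by rw [pow_succ]; omega))

lemma Z2 (hu : PD u) {k t d h y : ℕ} (hy : y < 2 ^ t)
    (H : Reach u k (2 ^ (t + 2 + 2 * d + 1) * h + y)) :
    Reach u (k + 2) (2 ^ (t + 2 + 2 * d) * (2 * h + 1) + 2 ^ t + y) := by
  have p : 2 ^ (t + 1) ≤ 2 ^ (t + 2 + 2 * d) := Nat.pow_le_pow_right (by norm_num) (by omega)
  rw [pow_succ] at p
  have := half hu (e := 2 ^ (t + 2 + 2 * d) - 1 - y) (by omega) (by omega) H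
  have q : 2 ^ (t + 2 + 2 * d) * (2 * h + 1) = 2 ^ (t + 2 + 2 * d + 1) * h + 2 ^ (t + 2 + 2 * d) := by
    ring
  exact this.step (by omega) (palE hu hy (by omega))

def a : ℕ → ℕ
  | 0 => 0
  | j + 1 => 32 * a j + 1

lemma a_add (i j : ℕ) : a (i + j) = 2 ^ (5 * j) * a i + a j := by
  induction j with
  | zero => simp [a]
  | succ j ih => rw [← add_assoc, a, a, ih]; ring

lemma a_succ (j : ℕ) : a (j + 1) = 2 ^ (5 * j) + a j := by
  rw [add_comm, a_add]; simp [a]

lemma a_lt (j : ℕ) : a j < 2 ^ (5 * j) := by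
  induction j with
  | zero => simp [a]
  | succ j ih => rw [a, show 2 ^ (5 * (j + 1)) = 32 * 2 ^ (5 * j) by ring]; omega

lemma a_bit (j : ℕ) : ∀ i, (a j).testBit i = decide (i % 5 = 0 ∧ i < 5 * j) := by
  induction j with
  | zero => simp [a]
  | succ j ih =>
    intro i
    rw [a, show 32 = 2 ^ 5 by norm_num, Nat.testBit_two_pow_mul_add _ (by norm_num), ih]
    split_ifs with c
    · interval_cases i <;> simp <;> decide
    · rw [decide_eq_decide]; omega

lemma zip (hu : PD u) {k b y : ℕ} (hy : y < 2 ^ b) (r : ℕ) : ∀ d h : ℕ,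
    Reach u k (2 ^ (b + 5 * r + 1 + 2 * d + 5 * r) * h + y) →
    Reach u (k + 2 * r) (2 ^ (b + 5 * r + 1 + 2 * d) * (2 ^ (5 * r) * h + a r) + 2 ^ b * a r + y) := by
  induction r with
  | zero => intro d h H; simpa [a] using H
  | succ r ih =>
    intro d h H
    have p := ih (d + 5) h (by rwa [show b + 5 * r + 1 + 2 * (d + 5) + 5 * r =
      b + 5 * (r + 1) + 1 + 2 * d + 5 * (r + 1) by ring])
    have l : 2 ^ b * a r + y < 2 ^ (b + 5 * r) := by
      have := a_lt r
      rw [pow_add]
      nlinarith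
    have q := Z2 hu (k := k + 2 * r) (d := d + 2) (h := 16 * (2 ^ (5 * r) * h + a r)) l
      (by convert p using 1; ring)
    convert q using 1
    · ring
    · rw [show 2 ^ b * a (r + 1) = 2 ^ b * (2 ^ (5 * r) + a r) by rw [a_succ], a]
      ring

def f (m k : ℕ) : ℕ := 2 ^ (5 * k + 4) * a m + 8 * a k

lemma up1 (hu : PD u) (m : ℕ) : Reach u (2 * m) (f m m) := by
  have := zip hu (k := 0) (b := 3) (y := 0) (by norm_num) m 0 0 (by simpa using Reach.zero)
  convert this using 1
  · ring
  · unfold f; ring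

lemma up2 (hu : PD u) (m i : ℕ) : Reach u (2 * m + 2 * i + 4) (f m (m + (2 * i + 2))) := by
  have p1 : Reach u 2 8 := by
    simpa using Z1 hu (k := 0) (w := 3) (h := 0) (y := 0) (by norm_num) (by simpa using Reach.zero)
  have p2 := zip hu (b := 8) (y := 8) (by norm_num) i 2 0 (by simpa using p1)
  have l := a_lt i
  have p3 := Z1 hu (k := 2 + 2 * i) (w := 5 * i + 8) (h := 16 * a i) (y := 2 ^ 8 * a i + 8)
    (by
      have : 31 * a i < 2 ^ (5 * i) := by
        clear * -
        induction i with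
        | zero => simp [a]
        | succ j ih => rw [a, show 2 ^ (5 * (j + 1)) = 32 * 2 ^ (5 * j) by ring]; omega
      rw [pow_add]; omega) (by convert p2 using 1; ring)
  have p4 := zip hu (k := 2 + 2 * i + 2) (b := 3 + 5 * (2 * i + 2)) (y := 8 * a (2 * i + 2))
    (by have := a_lt (2 * i + 2); rw [pow_add]; omega) m 0 0 (by
      convert p3 using 1
      rw [show 2 * i + 2 = (i + 1) + (i + 1) by ring, a_add, a]
      ring)
  convert p4 using 1
  · ring
  · unfold f
    rw [a_add m]
    ring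

def T (m k : ℕ) : Finset ℕ :=
  (range k).image (fun i => 5 * i + 3) ∪ (range m).image (fun i => 5 * i + (5 * k + 4))

lemma mem_T {m k i : ℕ} : i ∈ T m k ↔
    (i % 5 = 3 ∧ i < 5 * k) ∨ (i % 5 = 4 ∧ 5 * k < i ∧ i < 5 * k + 5 * m) := by
  simp only [T, mem_union, mem_image, mem_range]
  constructor
  · rintro (⟨j, h, rfl⟩ | ⟨j, h, rfl⟩) <;> omega
  · rintro (h | h)
    · exact Or.inl ⟨i / 5, by omega, by omega⟩
    · exact Or.inr ⟨i / 5 - k, by omega, by omega⟩

lemma card_T (m k : ℕ) : (T m k).card = m + k := by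
  rw [T, card_union_of_disjoint, card_image_of_injective _ (fun a b e => by omega),
    card_image_of_injective _ (fun a b e => by omega), card_range, card_range, add_comm]
  rw [disjoint_left]
  intro x h1 h2
  obtain ⟨i, hi, rfl⟩ := mem_image.1 h1
  obtain ⟨j, -, e⟩ := mem_image.1 h2
  omega

lemma f_G (m k i : ℕ) : G (f m k) i ↔ (i + 1 ∈ T m k ∨ i ∈ T m k) := by
  have b : ∀ i, (f m k).testBit i = decide (i ∈ T m k) := by
    intro i
    have := a_lt k
    rw [f, Nat.testBit_two_pow_mul_add _ (by rw [pow_add]; omega), show 8 = 2 ^ 3 by norm_num,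
      Nat.testBit_two_pow_mul, a_bit, a_bit]
    simp only [mem_T]
    split_ifs
    · rw [← Bool.decide_and, decide_eq_decide]; omega
    · rw [decide_eq_decide]; omega
  unfold G
  rw [b, b, ne_eq, decide_eq_decide, mem_T, mem_T]
  omega

def vl (j : ℕ) : ℤ := if j % 2 = 0 then -((j / 2 : ℕ) : ℤ) else ((j + 1) / 2 : ℕ)

lemma v5 {D : Finset ℕ} {x : ℕ} (h0 : x ∈ D) (h1 : x + 1 ∉ D) (h2 : x + 1 + 1 ∉ D)
    (h3 : x + 1 + 1 + 1 ∉ D) (h4 : x + 1 + 1 + 1 + 1 ∉ D) :
    v D (x + 5) = ((x % 2 : ℕ) : ℤ) - v D x := by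
  simp [v, *]

lemma v_low (m k j : ℕ) (h : j ≤ k) : v (T m k) (5 * j + 3) = vl j := by
  induction j with
  | zero =>
    have : ∀ i, i < 3 → i ∉ T m k := fun i hi => by rw [mem_T]; omega
    simp [v, vl, this]
  | succ j ih =>
    rw [show 5 * (j + 1) + 3 = 5 * j + 3 + 5 by ring, v5, ih (by omega)]
    · unfold vl; split_ifs <;> omega
    all_goals rw [mem_T]; omega

lemma v_up (m k j : ℕ) (h : j ≤ m) (h' : j ≤ k) : v (T m k) (5 * k + 4 + 5 * j) = vl (k - j) := by
  induction j with
  | zero =>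
    have : 5 * k + 3 ∉ T m k := by rw [mem_T]; omega
    rw [mul_zero, add_zero, Nat.sub_zero, show 5 * k + 4 = 5 * k + 3 + 1 from rfl, v, if_neg this,
      v_low m k k le_rfl]
  | succ j ih =>
    rw [show 5 * k + 4 + 5 * (j + 1) = 5 * k + 4 + 5 * j + 5 by ring, v5, ih (by omega) (by omega)]
    · unfold vl; split_ifs <;> omega
    all_goals rw [mem_T]; omega

lemma low1 (hu : PD u) {m k j : ℕ} (H : Reach u j (f m k)) : m + k ≤ j := by
  rw [← card_T]
  exact pack hu H _ (fun a ha => (f_G _ _ _).2 (Or.inr ha))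
    (fun a ha b hb => by rw [mem_T] at ha hb; omega)

lemma low2 (hu : PD u) {m k j : ℕ} (h : m < k) (H : Reach u j (f m k)) : m + k < j := by
  by_contra c
  have := inv hu H (T m k) (T m k) (fun a ha => by rw [mem_T] at ha; omega)
    (fun a ha b hb => by rw [mem_T] at ha hb; omega) subset_rfl (f_G m k)
    (by rw [card_T]; omega) (5 * k + 4 + 5 * m) (fun a ha => by rw [mem_T] at ha; omega)
  rw [v_up m k m le_rfl h.le] at this
  unfold vl at this
  split_ifs at this <;> omega

def Fac (u : ℕ → Bool) (k n : ℕ) : Prop := ∃ L : List (List Bool), L.length = k ∧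
  (∀ w ∈ L, w.reverse = w) ∧ L.flatten = List.ofFn (fun i : Fin n => u i.val)

lemma ofFn_split (u : ℕ → Bool) (n d : ℕ) : List.ofFn (fun i : Fin (n + d) => u i.val) =
    List.ofFn (fun i : Fin n => u i.val) ++ List.ofFn (fun i : Fin d => u (n + i.val)) := by
  rw [List.ofFn_add]; rfl

lemma pal_iff (n d : ℕ) : Pal u n (n + d) ↔ (List.ofFn (fun i : Fin d => u (n + i.val))).reverse =
    List.ofFn (fun i : Fin d => u (n + i.val)) := by
  constructor
  · intro h
    refine List.ext_getElem (by simp) (fun i h1 h2 => ?_)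
    simp only [List.length_ofFn] at h2
    simp only [List.getElem_reverse, List.getElem_ofFn, List.length_ofFn]
    exact h (n + (d - 1 - i) + 1) (n + i + 1) (by omega) (by omega) (by omega)
  · intro h p q h1 h2 h3
    have := List.getElem_of_eq h (i := q - 1 - n) (by simp; omega)
    simp only [List.getElem_reverse, List.getElem_ofFn, List.length_ofFn] at this
    convert this using 2 <;> omega

lemma fac_iff {k n : ℕ} : Fac u k n ↔ Reach u k n := by
  constructor
  · rintro ⟨L, rfl, h1, h2⟩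
    induction L using List.reverseRecOn generalizing n with
    | nil =>
      have := congrArg List.length h2
      simp at this
      rw [← this]
      exact Reach.zero
    | append_singleton L w ih =>
      have l := congrArg List.length h2
      simp only [List.flatten_append, List.flatten_singleton, List.length_append,
        List.length_ofFn] at l h2
      subst l
      rw [ofFn_split] at h2
      obtain ⟨e1, e2⟩ := List.append_inj h2 (by simp)
      rw [List.length_append, List.length_singleton]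
      refine (ih (fun x hx => h1 x (by simp [hx])) e1).step (by omega) ((pal_iff _ _).2 ?_)
      rw [← e2]
      exact h1 w (by simp)
  · intro h
    induction h with
    | zero => exact ⟨[], rfl, by simp, by simp⟩
    | @step k n' n _ h1 h2 ih =>
      obtain ⟨L, p1, p2, p3⟩ := ih
      obtain ⟨d, rfl⟩ := Nat.exists_eq_add_of_le h1
      refine ⟨L ++ [List.ofFn (fun i : Fin d => u (n' + i.val))], by simp [p1], fun w hw => ?_, ?_⟩
      · rcases List.mem_append.1 hw with c | c
        · exact p2 w c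
        · rw [List.mem_singleton.1 c]; exact (pal_iff _ _).1 h2
      · rw [ofFn_split, ← p3]; simp

lemma main (hu : PD u) (p : ℕ → ℕ) (hp : ∀ n, IsLeast {k | Fac u k n} (p n)) :
    ¬ (Submodule.span ℤ {f : ℕ → ℤ | ∃ e r : ℕ, r < 2 ^ e ∧
      f = fun n : ℕ => ((p (2 ^ e * n + r) : ℕ) : ℤ)}).FG := by
  rintro ⟨S, hS⟩
  set red := fun (v : ℕ → ℤ) (n : ℕ) => (v n : ZMod 4) with hred
  have key : ∀ n n', (∀ g ∈ S, red g n = red g n') → ∀ g ∈ Submodule.span ℤ (S : Set (ℕ → ℤ)),
      red g n = red g n' := by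
    intro n n' h g hg
    induction hg using Submodule.span_induction with
    | mem x hx => exact h x hx
    | zero => simp [hred]
    | add x y _ _ h1 h2 => simp only [hred, Pi.add_apply, Int.cast_add] at *; rw [h1, h2]
    | smul a x _ h1 => simp only [hred, Pi.smul_apply, smul_eq_mul, Int.cast_mul] at *; rw [h1]
  have fin : ∀ j j', j < j' → ¬ ∀ g ∈ S, red g (a (4 * j)) = red g (a (4 * j')) := by
    intro j j' hj h
    have e := key _ _ h (fun n => ((p (2 ^ (5 * (4 * j') + 4) * n + 8 * a (4 * j')) : ℕ) : ℤ))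
      (hS ▸ Submodule.subset_span ⟨_, _, by have := a_lt (4 * j'); rw [pow_add]; omega, rfl⟩)
    simp only [hred, Int.cast_natCast, ZMod.natCast_eq_natCast_iff'] at e
    change p (f (4 * j) (4 * j')) % 4 = p (f (4 * j') (4 * j')) % 4 at e
    have a1 := low1 hu (fac_iff.1 (hp (f (4 * j') (4 * j'))).1)
    have a2 := (hp _).2 (fac_iff.2 (up1 hu (4 * j')))
    have a3 := low2 hu (by omega) (fac_iff.1 (hp (f (4 * j) (4 * j'))).1)
    obtain ⟨d, rfl⟩ := Nat.exists_eq_add_of_lt hj
    have a4 := up2 hu (4 * j) (2 * d + 1)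
    rw [show 4 * j + (2 * (2 * d + 1) + 2) = 4 * (j + d + 1) by ring] at a4
    have a5 := (hp _).2 (fac_iff.2 a4)
    omega
  obtain ⟨j, j', hj, e⟩ := Finite.exists_ne_map_eq_of_infinite
    (fun j : ℕ => fun g : S => red g (a (4 * j)))
  rcases lt_or_gt_of_ne hj with c | c
  · exact fin j j' c (fun g hg => congrFun e ⟨g, hg⟩)
  · exact fin j' j c (fun g hg => (congrFun e ⟨g, hg⟩).symm)

end Pool.Agent.H.MP_c2a681_co
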